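import Pool.Agent.Helper57.MT.Goals

set_option autoImplicit false

namespace Pool.Agent.Helper35.MT

open Finset Pool.Agent.Helper57.MT

open scoped Classical

theorem key (l x h : ℕ) (hl : 0 < l) : l ∣ (l - x % l) % l + h ↔ x ≡ h [MOD l] := by
  have hx : x % l ≤ l := (Nat.mod_lt _ hl).le
  have e1 : (((l - x % l) % l : ℕ) : ZMod l) = -(x : ZMod l) := by
    rw [ZMod.natCast_mod, Nat.cast_sub hx, ZMod.natCast_mod, ZMod.natCast_self, zero_sub]
  rw [← ZMod.natCast_eq_zero_iff, Nat.cast_add, e1, ← ZMod.natCast_eq_natCast_iff,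
    neg_add_eq_zero]

theorem ht_iff (H : Finset ℕ) (l x : ℕ) (hl : 0 < l) :
    (l - x % l) % l ∈ Al H l ↔ ¬ Ht H l x := by
  unfold Al Ht
  rw [Finset.mem_filter, Finset.mem_range]
  constructor
  · rintro ⟨-, h1⟩ ⟨h', hh', h2⟩
    exact h1 h' hh' ((key l x h' hl).2 h2)
  · intro h1
    refine ⟨Nat.mod_lt _ hl, ?_⟩
    intro h hh h2
    exact h1 ⟨h, hh, (key l x h hl).1 h2⟩

theorem image_eq (H : Finset ℕ) (l : ℕ) (hl : 0 < l) :
    (range l).filter (fun a => Ht H l a) = H.image (fun i => i % l) := by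
  ext a
  rw [Finset.mem_filter, Finset.mem_range, Finset.mem_image]
  constructor
  · rintro ⟨ha, h', hh', h2⟩
    refine ⟨h', hh', ?_⟩
    have : a % l = h' % l := h2
    rw [Nat.mod_eq_of_lt ha] at this
    exact this.symm
  · rintro ⟨h', hh', rfl⟩
    exact ⟨Nat.mod_lt _ hl, h', hh', Nat.mod_modEq _ _⟩

theorem card_compl (H : Finset ℕ) (l : ℕ) (hl : 0 < l) :
    ((range l).filter (fun a => ¬ Ht H l a)).card + (H.image (fun i => i % l)).card = l := by
  have h1 := Finset.card_filter_add_card_filter_not (s := range l) (fun a => Ht H l a)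
  rw [image_eq H l hl, Finset.card_range] at h1
  omega

theorem card_Al (H : Finset ℕ) (l : ℕ) (hl : 0 < l) :
    (Al H l).card = ((range l).filter (fun a => ¬ Ht H l a)).card := by
  symm
  have inv : ∀ a, a < l → (l - (l - a) % l) % l = a := by
    intro a ha
    rcases Nat.eq_zero_or_pos a with h0 | h0
    · subst h0
      simp
    · rw [Nat.mod_eq_of_lt (show l - a < l by omega), show l - (l - a) = a by omega,
        Nat.mod_eq_of_lt ha]
  have mem : ∀ a, a < l → (((l - a) % l ∈ Al H l) ↔ ¬ Ht H l a) := by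
    intro a ha
    have := ht_iff H l a hl
    rw [Nat.mod_eq_of_lt ha] at this
    exact this
  refine Finset.card_nbij' (fun a => (l - a) % l) (fun a => (l - a) % l) ?_ ?_ ?_ ?_
  · intro a ha
    rw [Finset.coe_filter] at ha
    have ha' : a < l ∧ ¬ Ht H l a := by simpa using ha
    exact (mem a ha'.1).2 ha'.2
  · intro a ha
    have ha1 : a < l := by
      have : a ∈ Al H l := ha
      unfold Al at this
      rw [Finset.mem_filter, Finset.mem_range] at this
      exact this.1
    have h2 : (l - a) % l < l := Nat.mod_lt _ hl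
    have h3 := (mem _ h2).1 (by rw [inv a ha1]; exact ha)
    rw [Finset.coe_filter]
    exact ⟨by simpa using h2, h3⟩
  · intro a ha
    rw [Finset.coe_filter] at ha
    have ha' : a < l ∧ ¬ Ht H l a := by simpa using ha
    exact inv a ha'.1
  · intro a ha
    have ha1 : a < l := by
      have : a ∈ Al H l := ha
      unfold Al at this
      rw [Finset.mem_filter, Finset.mem_range] at this
      exact this.1
    exact inv a ha1

theorem sv1 : StmtSV1 := by
  intro H l hlp hne ⟨a, ha⟩
  have hl : 0 < l := hlp.pos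
  have hl2 : (2 : ℝ) ≤ l := by exact_mod_cast hlp.two_le
  set ν := (H.image (fun i => i % l)).card with hν
  set m := ((range l).filter (fun a => ¬ Ht H l a)).card with hm
  have hsum : m + ν = l := card_compl H l hl
  have haH : ¬ Ht H l a := by
    rintro ⟨h', hh', h2⟩
    exact ha h' hh' h2.symm
  have hmpos : 1 ≤ m := by
    have : (a % l) ∈ (range l).filter (fun a => ¬ Ht H l a) := by
      rw [Finset.mem_filter, Finset.mem_range]
      refine ⟨Nat.mod_lt _ hl, ?_⟩
      rintro ⟨h', hh', h2⟩
      exact haH ⟨h', hh', (Nat.mod_modEq a l).symm.trans h2⟩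
    exact Finset.card_pos.2 ⟨_, this⟩
  have hcast : (l : ℝ) - (ν : ℝ) = m := by
    have : (m : ℝ) + ν = l := by exact_mod_cast hsum
    linarith
  have hm1 : (1 : ℝ) ≤ m := by exact_mod_cast hmpos
  have hml : (m : ℝ) ≤ l := by
    have : m ≤ l := by omega
    exact_mod_cast this
  have svdef : ∀ h, sv H l h = if Ht H l h then 1 else 1 - 1 / (m : ℝ) := by
    intro h
    unfold sv
    rw [← hν, hcast]
  have hinv0 : 0 ≤ 1 / (m : ℝ) := by positivity
  have hinv1 : 1 / (m : ℝ) ≤ 1 := by
    rw [div_le_one (by linarith)]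
    exact hm1
  have hAl : (Al H l).card = m := card_Al H l hl
  refine ⟨?_, ?_, ?_, ?_, ?_, ?_⟩
  · intro h
    rw [svdef]
    split_ifs
    · exact ⟨zero_le_one, le_refl _⟩
    · constructor <;> linarith
  · intro h
    rw [svdef, svdef]
    have : Ht H l (h % l) ↔ Ht H l h := by
      constructor
      · rintro ⟨h', hh', h2⟩
        exact ⟨h', hh', (Nat.mod_modEq h l).symm.trans h2⟩
      · rintro ⟨h', hh', h2⟩
        exact ⟨h', hh', (Nat.mod_modEq h l).trans h2⟩
    by_cases h1 : Ht H l h
    · rw [if_pos h1, if_pos (this.2 h1)]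
    · rw [if_neg h1, if_neg (fun h2 => h1 (this.1 h2))]
  · simp only [svdef]
    rw [Finset.sum_ite, image_eq H l hl, Finset.sum_const, Finset.sum_const, ← hν, ← hm,
      nsmul_eq_mul, nsmul_eq_mul]
    have hm0 : (m : ℝ) ≠ 0 := by positivity
    have e1 : (m : ℝ) * (1 - 1 / (m : ℝ)) = m - 1 := by
      field_simp
    rw [e1]
    linarith
  · intro h
    rw [svdef]
    have hl0 : (0 : ℝ) < l := by linarith
    split_ifs with h1
    · have e1 : (1 - 1 / (l : ℝ)) * (1 + 2 / l) = 1 + (1 / l) * (1 - 2 / l) := by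
        field_simp
        ring
      rw [e1]
      have e2 : 2 / (l : ℝ) ≤ 1 := by
        rw [div_le_one hl0]
        exact hl2
      have : 0 ≤ (1 / (l : ℝ)) * (1 - 2 / l) := mul_nonneg (by positivity) (by linarith)
      linarith
    · rw [mul_one]
      have : 1 / (l : ℝ) ≤ 1 / m := one_div_le_one_div_of_le (by linarith) hml
      linarith
  · apply Finset.card_pos.1
    rw [hAl]
    exact hmpos
  · intro h
    rw [svdef, hAl]
    by_cases h1 : Ht H l h
    · rw [if_pos h1, if_neg (fun h2 => (ht_iff H l h hl).1 h2 h1), sub_zero]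
    · rw [if_neg h1, if_pos ((ht_iff H l h hl).2 h1)]

end Pool.Agent.Helper35.MT
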