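import Pool.Agent.Helper35.MT.SV1

set_option autoImplicit false

namespace Pool.Agent.Helper35.MT

open Finset Pool.Agent.Helper57.MT

open scoped Classical

theorem Fs_nonneg (H : Finset ℕ) (K1 p h : ℕ) (hne : H.Nonempty)
    (hH : ∀ l : ℕ, l.Prime → ∃ a : ℕ, ∀ h ∈ H, ¬ h ≡ a [MOD l]) : 0 ≤ Fs H K1 p h := by
  unfold Fs
  refine Finset.prod_nonneg fun l hl => ?_
  have hlp : l.Prime := (Finset.mem_filter.1 (Finset.mem_of_mem_erase hl)).2
  exact ((sv1 H l hlp hne (hH l hlp)).1 h).1

theorem sv_congr (H : Finset ℕ) (l h h' : ℕ) (hc : h ≡ h' [MOD l]) : sv H l h = sv H l h' := by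
  have : Ht H l h ↔ Ht H l h' := by
    constructor
    · rintro ⟨x, hx, h2⟩
      exact ⟨x, hx, hc.symm.trans h2⟩
    · rintro ⟨x, hx, h2⟩
      exact ⟨x, hx, hc.trans h2⟩
  unfold sv
  by_cases h1 : Ht H l h
  · rw [if_pos h1, if_pos (this.1 h1)]
  · rw [if_neg h1, if_neg (fun h2 => h1 (this.2 h2))]

theorem Fs_congr (H : Finset ℕ) (K1 p h : ℕ) :
    Fs H K1 p h = Fs H K1 p (h % primorial K1) := by
  unfold Fs
  refine Finset.prod_congr rfl fun l hl => ?_
  have hl' := Finset.mem_filter.1 (Finset.mem_of_mem_erase hl)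
  have hd : l ∣ primorial K1 := by
    unfold primorial
    apply Finset.dvd_prod_of_mem (fun p => p)
    rw [Finset.mem_filter, Finset.mem_range]
    exact ⟨by have := (Finset.mem_Icc.1 hl'.1).2; omega, hl'.2⟩
  apply sv_congr
  exact ((Nat.mod_modEq h (primorial K1)).of_dvd hd).symm

theorem modEq_e (e h h0 : ℕ) (he : Squarefree e)
    (hh : ∀ l : ℕ, l.Prime → l ∣ e → h ≡ h0 [MOD l]) : h ≡ h0 [MOD e] := by
  have h1 : e ∣ ((h0 : ℤ) - h).natAbs := by
    conv_lhs => rw [← Nat.prod_primeFactors_of_squarefree he]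
    apply Finset.prod_primes_dvd
    · intro l hl
      exact (Nat.prime_of_mem_primeFactors hl).prime
    · intro l hl
      have := (Nat.modEq_iff_dvd.1
        (hh l (Nat.prime_of_mem_primeFactors hl) (Nat.dvd_of_mem_primeFactors hl)))
      exact Int.natCast_dvd.1 this
  exact Nat.modEq_iff_dvd.2 (Int.natCast_dvd.2 h1)

theorem zf : StmtZF := by
  intro H Z K1 p e N hne hH he hp hN
  have hM : 0 < primorial K1 := primorial_pos K1
  have hN0 : 0 ≤ N := le_trans (by positivity) (hN 0)
  have hF0 := fun h => Fs_nonneg H K1 p h hne hH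
  have hcop : Nat.Coprime (primorial K1) e := by
    unfold primorial
    apply Nat.Coprime.prod_left
    intro l hl
    rw [Finset.mem_filter, Finset.mem_range] at hl
    rw [Nat.Prime.coprime_iff_not_dvd hl.2]
    intro hd
    have := hp l hl.2 hd
    omega
  -- choice functions
  set P := e.primeFactors.pi (fun _ => H) with hP
  have hPc : (P.card : ℝ) = (H.card : ℝ) ^ e.primeFactors.card := by
    rw [hP, Finset.card_pi, Finset.prod_const]
    push_cast
    rfl
  let C : ((l : ℕ) → l ∈ e.primeFactors → ℕ) → ℕ → Prop := fun f h =>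
    ∀ l (hl : l ∈ e.primeFactors), h ≡ f l hl [MOD l]
  have hind : ∀ h, (if ∀ l, l.Prime → l ∣ e → Ht H l h then (1 : ℝ) else 0) ≤
      ∑ f ∈ P, (if C f h then (1 : ℝ) else 0) := by
    intro h
    split_ifs with h1
    · have h2 : ∀ l (hl : l ∈ e.primeFactors), ∃ x ∈ H, h ≡ x [MOD l] := by
        intro l hl
        exact h1 l (Nat.prime_of_mem_primeFactors hl) (Nat.dvd_of_mem_primeFactors hl)
      choose f hf1 hf2 using h2
      have hfP : f ∈ P := by
        rw [hP, Finset.mem_pi]
        exact hf1
      have h3 : (1 : ℝ) = (if C f h then (1 : ℝ) else 0) := by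
        rw [if_pos hf2]
      exact le_trans (le_of_eq h3)
        (Finset.single_le_sum (f := fun f => (if C f h then (1 : ℝ) else 0))
          (fun g _ => by split_ifs <;> norm_num) hfP)
    · exact Finset.sum_nonneg fun g _ => by split_ifs <;> norm_num
  calc ∑ h ∈ Z, Fs H K1 p h * (if ∀ l, l.Prime → l ∣ e → Ht H l h then 1 else 0)
      ≤ ∑ h ∈ Z, Fs H K1 p h * ∑ f ∈ P, (if C f h then (1 : ℝ) else 0) :=
        Finset.sum_le_sum fun h _ => mul_le_mul_of_nonneg_left (hind h) (hF0 h)
    _ = ∑ f ∈ P, ∑ h ∈ Z, Fs H K1 p h * (if C f h then (1 : ℝ) else 0) := by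
        simp only [Finset.mul_sum]
        rw [Finset.sum_comm]
    _ = ∑ f ∈ P, ∑ a ∈ range (primorial K1), Fs H K1 p a *
          ((Z.filter (fun h => h % primorial K1 = a ∧ C f h)).card : ℝ) := by
        refine Finset.sum_congr rfl fun f _ => ?_
        have e1 : ∑ h ∈ Z, Fs H K1 p h * (if C f h then (1 : ℝ) else 0) =
            ∑ h ∈ Z.filter (fun h => C f h), Fs H K1 p h := by
          rw [Finset.sum_filter]
          refine Finset.sum_congr rfl fun h _ => ?_
          split_ifs <;> simp
        rw [e1]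
        have e2 : ∀ h ∈ Z.filter (fun h => C f h), h % primorial K1 ∈ range (primorial K1) :=
          fun h _ => Finset.mem_range.2 (Nat.mod_lt _ hM)
        rw [← Finset.sum_fiberwise_of_maps_to e2]
        refine Finset.sum_congr rfl fun a _ => ?_
        have e3 : ∀ h ∈ (Z.filter (fun h => C f h)).filter (fun h => h % primorial K1 = a),
            Fs H K1 p h = Fs H K1 p a := by
          intro h hh
          rw [Fs_congr, (Finset.mem_filter.1 hh).2]
        rw [Finset.sum_congr rfl e3, Finset.sum_const, nsmul_eq_mul, mul_comm, Finset.filter_filter]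
        congr 3
        ext h
        simp only [Finset.mem_filter]
        tauto
    _ ≤ ∑ f ∈ P, ∑ a ∈ range (primorial K1), Fs H K1 p a * N := by
        refine Finset.sum_le_sum fun f _ => Finset.sum_le_sum fun a _ => ?_
        apply mul_le_mul_of_nonneg_left _ (hF0 a)
        rcases (Z.filter (fun h => h % primorial K1 = a ∧ C f h)).eq_empty_or_nonempty with h0 | ⟨h0, hh0⟩
        · rw [h0]
          simpa using hN0
        · rw [Finset.mem_filter] at hh0
          refine le_trans ?_ (hN h0)
          have : (Z.filter (fun h => h % primorial K1 = a ∧ C f h)) ⊆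
              (Z.filter (fun h => h ≡ h0 [MOD primorial K1 * e])) := by
            intro h hh
            rw [Finset.mem_filter] at hh ⊢
            refine ⟨hh.1, ?_⟩
            rw [← Nat.modEq_and_modEq_iff_modEq_mul hcop]
            refine ⟨?_, ?_⟩
            · show h % primorial K1 = h0 % primorial K1
              rw [hh.2.1, hh0.2.1]
            · apply modEq_e e h h0 he
              intro l hl hle
              have hmem : l ∈ e.primeFactors := Nat.mem_primeFactors.2 ⟨hl, hle, he.ne_zero⟩
              exact (hh.2.2 l hmem).trans (hh0.2.2 l hmem).symm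
          exact_mod_cast Finset.card_le_card this
    _ = (H.card : ℝ) ^ e.primeFactors.card * (∑ a ∈ range (primorial K1), Fs H K1 p a) * N := by
        rw [Finset.sum_const, nsmul_eq_mul, hPc, ← Finset.sum_mul]
        ring

end Pool.Agent.Helper35.MT
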